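import Pool.Agent.helper1.PR.Defs

/-!
MP_15abe0_co, modules [B] (toolkit for invariant means) and [D] (sequences of types).
-/

namespace Pool.Agent.helper1.PR

open Finset

private theorem ind_mem {U : Set S} {s : S} (h : s ∈ U) : ind U s = 1 := by
  unfold ind; rw [if_pos h]

private theorem ind_nmem {U : Set S} {s : S} (h : s ∉ U) : ind U s = 0 := by
  unfold ind; rw [if_neg h]

private theorem ind_nonneg' (U : Set S) (s : S) : 0 ≤ ind U s := by
  unfold ind; split_ifs <;> norm_num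

private theorem ind_le_one' (U : Set S) (s : S) : ind U s ≤ 1 := by
  unfold ind; split_ifs <;> norm_num

theorem bd_ind (U : Set S) : Bd (ind U) :=
  ⟨1, fun s => by rw [abs_of_nonneg (ind_nonneg' U s)]; exact ind_le_one' U s⟩

private theorem bd_const' (c : ℝ) : Bd (fun _ : S => c) := ⟨|c|, fun _ => le_rfl⟩

private theorem Bd.add' {F G : S → ℝ} (hF : Bd F) (hG : Bd G) : Bd (fun s => F s + G s) := by
  obtain ⟨C, hC⟩ := hF
  obtain ⟨D, hD⟩ := hG
  exact ⟨C + D, fun s => (abs_add_le _ _).trans (add_le_add (hC s) (hD s))⟩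

private theorem Bd.smul' {F : S → ℝ} (hF : Bd F) (c : ℝ) : Bd (fun s => c * F s) := by
  obtain ⟨C, hC⟩ := hF
  exact ⟨|c| * C, fun s => by rw [abs_mul]; exact mul_le_mul_of_nonneg_left (hC s) (abs_nonneg _)⟩

private theorem m_zero' {m : (S → ℝ) → ℝ} (hm : IsMean m) : m (fun _ => 0) = 0 := by
  have := hm.smul 0 (fun _ => 1) (bd_const' 1)
  simpa using this

private theorem m_const' {m : (S → ℝ) → ℝ} (hm : IsMean m) (c : ℝ) : m (fun _ => c) = c := by
  have := hm.smul c (fun _ => 1) (bd_const' 1)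
  rw [hm.one, mul_one] at this
  simpa using this

private theorem m_ind_le_one' {m : (S → ℝ) → ℝ} (hm : IsMean m) (U : Set S) : m (ind U) ≤ 1 := by
  rw [← hm.one]
  exact hm.mono _ _ (bd_ind U) (bd_const' 1) (ind_le_one' U)

theorem Full.mono {m : (S → ℝ) → ℝ} (hm : IsMean m) {U V : Set S} (hU : Full m U) (h : U ⊆ V) :
    Full m V := by
  refine le_antisymm (m_ind_le_one' hm V) ?_
  rw [← hU]
  refine hm.mono _ _ (bd_ind U) (bd_ind V) (fun s => ?_)
  by_cases hs : s ∈ U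
  · rw [ind_mem hs, ind_mem (h hs)]
  · rw [ind_nmem hs]; exact ind_nonneg' V s

theorem Full.inter {m : (S → ℝ) → ℝ} (hm : IsMean m) {U V : Set S} (hU : Full m U)
    (hV : Full m V) : Full m (U ∩ V) := by
  refine le_antisymm (m_ind_le_one' hm _) ?_
  have h1 : m (fun s => ind U s + ind V s) ≤ m (fun s => 1 + ind (U ∩ V) s) := by
    refine hm.mono _ _ ((bd_ind U).add' (bd_ind V)) ((bd_const' 1).add' (bd_ind _)) (fun s => ?_)
    by_cases hs : s ∈ U
    · by_cases hs' : s ∈ V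
      · rw [ind_mem hs, ind_mem hs', ind_mem (Set.mem_inter hs hs')]
      · rw [ind_mem hs, ind_nmem hs']
        have := ind_nonneg' (U ∩ V) s
        linarith
    · rw [ind_nmem hs]
      have := ind_nonneg' (U ∩ V) s
      have := ind_le_one' V s
      linarith
  rw [hm.add _ _ (bd_ind U) (bd_ind V), hm.add _ _ (bd_const' 1) (bd_ind _), hm.one] at h1
  unfold Full at hU hV
  linarith

theorem Full.nonempty {m : (S → ℝ) → ℝ} (hm : IsMean m) {U : Set S} (hU : Full m U) :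
    U.Nonempty := by
  by_contra h
  rw [Set.not_nonempty_iff_eq_empty] at h
  subst h
  have h1 : ind (∅ : Set S) = fun _ => 0 := by
    funext s; exact ind_nmem (Set.notMem_empty s)
  unfold Full at hU
  rw [h1, m_zero' hm] at hU
  exact zero_ne_one hU

theorem Full.translate {m : (S → ℝ) → ℝ} (hm : IsMean m) {U : Set S} (hU : Full m U) (g : S) :
    Full m {s | g * s ∈ U} := by
  have h1 : ind {s | g * s ∈ U} = fun s => ind U (g * s) := by
    funext s; rfl
  unfold Full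
  rw [h1, hm.inv g (ind U) (bd_ind U)]
  exact hU

private theorem full_univ' {m : (S → ℝ) → ℝ} (hm : IsMean m) {U : Set S} (h : ∀ s, s ∈ U) :
    Full m U := by
  have h1 : ind U = fun _ => 1 := by
    funext s; exact ind_mem (h s)
  unfold Full
  rw [h1, hm.one]

theorem Full.biInter {m : (S → ℝ) → ℝ} (hm : IsMean m) {ι : Type*} (I : Finset ι)
    (U : ι → Set S) (h : ∀ i ∈ I, Full m (U i)) : Full m {s | ∀ i ∈ I, s ∈ U i} := by
  classical
  induction I using Finset.induction_on with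
  | empty => exact full_univ' hm (fun s => by simp)
  | insert a I _ ih =>
    have h1 := Full.inter hm (h a (mem_insert_self a I))
      (ih (fun i hi => h i (mem_insert_of_mem hi)))
    refine Full.mono hm h1 ?_
    rintro s ⟨hs1, hs2⟩ i hi
    rw [mem_insert] at hi
    rcases hi with rfl | hi
    · exact hs1
    · exact hs2 i hi

private theorem full_of_mul' {m : (S → ℝ) → ℝ} (hm : IsMean m) {U : Set S} (g : S)
    (h : ∀ s, g * s ∈ U) : Full m U := by
  have h1 : (fun s => ind U (g * s)) = fun _ => 1 := by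
    funext s; exact ind_mem (h s)
  unfold Full
  rw [← hm.inv g (ind U) (bd_ind U), h1, hm.one]

theorem full_dvd {m : (S → ℝ) → ℝ} (hm : IsMean m) {D : ℕ} (hD : 0 < D) :
    Full m {s | D ∣ (s.2 : ℕ)} := by
  refine full_of_mul' hm (1, ⟨D, hD⟩) (fun s => ?_)
  change D ∣ (((1, ⟨D, hD⟩) * s : S).2 : ℕ)
  rw [Prod.snd_mul, PNat.mul_coe]
  exact Dvd.intro _ rfl

theorem full_ge {m : (S → ℝ) → ℝ} (hm : IsMean m) (L : ℕ) :
    Full m {s | L ≤ (s.2 : ℕ)} := by
  refine full_of_mul' hm (1, ⟨L + 1, Nat.succ_pos L⟩) (fun s => ?_)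
  change L ≤ (((1, ⟨L + 1, Nat.succ_pos L⟩) * s : S).2 : ℕ)
  rw [Prod.snd_mul, PNat.mul_coe]
  change L ≤ (L + 1) * (s.2 : ℕ)
  have := s.2.pos
  nlinarith

theorem full_of_mean_zero {m : (S → ℝ) → ℝ} (hm : IsMean m) {F : S → ℝ} (hB : Bd F)
    (h0 : ∀ s, 0 ≤ F s) (hF : m F = 0) {t : ℝ} (ht : 0 < t) : Full m {s | F s < t} := by
  refine le_antisymm (m_ind_le_one' hm _) ?_
  have h1 : m (fun _ => 1) ≤ m (fun s => ind {s | F s < t} s + t⁻¹ * F s) := by
    refine hm.mono _ _ (bd_const' 1) ((bd_ind _).add' (hB.smul' _)) (fun s => ?_)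
    by_cases hs : F s < t
    · rw [ind_mem (show s ∈ {s | F s < t} from hs)]
      have : 0 ≤ t⁻¹ * F s := mul_nonneg (inv_nonneg.2 ht.le) (h0 s)
      linarith
    · rw [ind_nmem (show s ∉ {s | F s < t} from hs), zero_add, inv_mul_eq_div, le_div_iff₀ ht]
      push Not at hs
      linarith
  rw [hm.one, hm.add _ _ (bd_ind _) (hB.smul' _), hm.smul _ _ hB, hF, mul_zero, add_zero] at h1
  exact h1

theorem mean_good {m : (S → ℝ) → ℝ} (hm : IsMean m) {F e : S → ℝ}
    (hF : ∀ s, 0 ≤ F s ∧ F s ≤ 1) (he : ∀ s, 0 ≤ e s ∧ e s ≤ 1) {ν ε : ℝ} (hν : 0 < ν)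
    (hε : 0 < ε) (h1 : ν ≤ m F) (h2 : m e ≤ ε * (ν / 4)) {U : Set S} (hU : Full m U) :
    ν / 4 ≤ m (ind {s | ν / 2 ≤ F s ∧ e s ≤ ε ∧ s ∈ U}) := by
  set A : Set S := {s | ν / 2 ≤ F s ∧ e s ≤ ε ∧ s ∈ U} with hA
  have hBF : Bd F := ⟨1, fun s => by rw [abs_of_nonneg (hF s).1]; exact (hF s).2⟩
  have hBe : Bd e := ⟨1, fun s => by rw [abs_of_nonneg (he s).1]; exact (he s).2⟩
  have h3 : m (fun s => F s + ind U s) ≤ m (fun s => (ν / 2 + 1) + (ind A s + ε⁻¹ * e s)) := by
    refine hm.mono _ _ (hBF.add' (bd_ind _))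
      ((bd_const' _).add' ((bd_ind _).add' (hBe.smul' _))) (fun s => ?_)
    have hA0 := ind_nonneg' A s
    have hU1 := ind_le_one' U s
    have he0 : 0 ≤ ε⁻¹ * e s := mul_nonneg (inv_nonneg.2 hε.le) (he s).1
    have hF1 := (hF s).2
    by_cases c1 : ν / 2 ≤ F s
    · by_cases c2 : e s ≤ ε
      · by_cases c3 : s ∈ U
        · rw [ind_mem (show s ∈ A from ⟨c1, c2, c3⟩)]
          linarith
        · rw [ind_nmem c3]
          linarith
      · have : 1 ≤ ε⁻¹ * e s := by
          rw [inv_mul_eq_div, le_div_iff₀ hε]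
          push Not at c2
          linarith
        linarith
    · push Not at c1
      linarith
  rw [hm.add _ _ hBF (bd_ind _), hm.add _ _ (bd_const' _) ((bd_ind _).add' (hBe.smul' _)),
    hm.add _ _ (bd_ind _) (hBe.smul' _), hm.smul _ _ hBe, m_const' hm] at h3
  unfold Full at hU
  rw [hU] at h3
  have h4 : ε⁻¹ * m e ≤ ν / 4 := by
    rw [inv_mul_eq_div, div_le_iff₀ hε]
    linarith
  linarith

private theorem m_sum' {m : (S → ℝ) → ℝ} (hm : IsMean m) {ι : Type*} (I : Finset ι)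
    (F : ι → S → ℝ) (hF : ∀ i, Bd (F i)) :
    Bd (fun s => ∑ i ∈ I, F i s) ∧ m (fun s => ∑ i ∈ I, F i s) = ∑ i ∈ I, m (F i) := by
  classical
  induction I using Finset.induction_on with
  | empty => exact ⟨by simpa using bd_const' 0, by simpa using m_zero' hm⟩
  | insert a I ha ih =>
    obtain ⟨ih1, ih2⟩ := ih
    constructor
    · simp only [sum_insert ha]
      exact (hF a).add' ih1
    · simp only [sum_insert ha]
      rw [hm.add _ _ (hF a) ih1, ih2]

open Classical in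
theorem exists_many {m : (S → ℝ) → ℝ} (hm : IsMean m) {A : Set S} {ν : ℝ} (hν : 0 < ν)
    (hA : ν ≤ m (ind A)) {ι : Type*} (I : Finset ι) (hI : I.Nonempty) (u : ι → S) :
    ∃ β : S, ν / 2 * #I ≤ (#{i ∈ I | β * u i ∈ A} : ℝ) := by
  by_contra hcon
  push Not at hcon
  have hB : ∀ i, Bd (fun s => ind A (u i * s)) := fun i =>
    ⟨1, fun s => by rw [abs_of_nonneg (ind_nonneg' A _)]; exact ind_le_one' A _⟩
  obtain ⟨hB1, hs1⟩ := m_sum' hm I (fun i s => ind A (u i * s)) hB
  have h1 : m (fun s => ∑ i ∈ I, ind A (u i * s)) ≤ m (fun _ => ν / 2 * #I) := by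
    refine hm.mono _ _ hB1 (bd_const' _) (fun s => ?_)
    refine le_trans (le_of_eq ?_) (hcon s).le
    rw [card_filter]
    push_cast
    refine sum_congr rfl (fun i _ => ?_)
    rw [mul_comm (u i) s]
    unfold ind
    split_ifs <;> rfl
  rw [hs1, m_const' hm] at h1
  have h2 : ∑ i ∈ I, m (fun s => ind A (u i * s)) = #I * m (ind A) := by
    rw [sum_congr rfl (fun i _ => hm.inv (u i) (ind A) (bd_ind A)), sum_const, nsmul_eq_mul]
  rw [h2] at h1
  have h3 : (0 : ℝ) < #I := by exact_mod_cast hI.card_pos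
  nlinarith [mul_le_mul_of_nonneg_left hA h3.le]

/-! ## [D] sequences of types with all quotients in a set of mean one -/

private theorem exists_sigma' {m : (S → ℝ) → ℝ} (hm : IsMean m) {U : Set S} (hU : Full m U)
    (G : Finset S) (n : ℕ) : ∃ σ : ℕ → S, ∀ a b, a < b → b ≤ n →
      ∀ g ∈ G, (∏ k ∈ Ico a b, σ k) * g ∈ U := by
  induction n with
  | zero => exact ⟨fun _ => 1, fun a b hab hb => absurd hb (by omega)⟩
  | succ n ih =>
    obtain ⟨σ, hσ⟩ := ih
    have h1 : Full m {s | ∀ i ∈ range (n + 1) ×ˢ G, s ∈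
        {s | ((∏ k ∈ Ico i.1 n, σ k) * i.2) * s ∈ U}} :=
      Full.biInter hm (range (n + 1) ×ˢ G)
        (fun i => {s | ((∏ k ∈ Ico i.1 n, σ k) * i.2) * s ∈ U})
        (fun i _ => Full.translate hm hU _)
    obtain ⟨s, hs⟩ := Full.nonempty hm h1
    refine ⟨Function.update σ n s, fun a b hab hb g hg => ?_⟩
    have h2 : ∀ c, c ≤ n → ∏ k ∈ Ico a c, Function.update σ n s k = ∏ k ∈ Ico a c, σ k := by
      intro c hc
      refine prod_congr rfl (fun k hk => ?_)
      rw [mem_Ico] at hk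
      rw [Function.update_of_ne (by omega)]
    rcases Nat.lt_or_ge n b with hb' | hb'
    · have hbn : b = n + 1 := by omega
      subst hbn
      rw [prod_Ico_succ_top (by omega), h2 n le_rfl, Function.update_self]
      have h3 := hs (a, g) (by rw [mem_product, mem_range]; exact ⟨hab, hg⟩)
      have h4 : (∏ k ∈ Ico a n, σ k) * s * g = (∏ k ∈ Ico a n, σ k) * g * s := mul_right_comm _ _ _
      rw [h4]
      exact h3
    · rw [h2 b hb']
      exact hσ a b hab hb' g hg

theorem exists_seq {m : (S → ℝ) → ℝ} (hm : IsMean m) {U : Set S} (hU : Full m U)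
    (G : Finset S) (n : ℕ) : ∃ τ : ℕ → S, ∃ d : ℕ → ℕ → S, ∀ a b, a < b → b < n →
      τ b = τ a * d a b ∧ ∀ g ∈ G, d a b * g ∈ U := by
  obtain ⟨σ, hσ⟩ := exists_sigma' hm hU G n
  refine ⟨fun a => ∏ k ∈ range a, σ k, fun a b => ∏ k ∈ Ico a b, σ k, fun a b hab hb => ⟨?_, ?_⟩⟩
  · exact (prod_range_mul_prod_Ico σ hab.le).symm
  · exact hσ a b hab hb.le

end Pool.Agent.helper1.PR
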